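import Pool.Agent.Results.MP_1fb3ec_gt.MobiusBandCounterexample

/-!
# The sharp area bound for flat Moebius bands

Groundwork for `Pool.Agent.Results.MP_1fb3ec_gt.FlatBandsSharp`.
-/

open Set MeasureTheory
open scoped ENNReal

namespace Pool.Agent.Y685.Mob

open Pool.Agent.Results.MP_1fb3ec_gt.MobiusBandCounterexample

noncomputable section

/-- `N` is a directed seminorm of the plane which defines a (flat, i.e. translation invariant)
directed Finsler semimetric on the Moebius band that fills its boundary circle without shortcuts, the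
two oriented lengths of the boundary circle being `a` and `b`. -/
structure IsFlatFilling (a b : ℝ) (N : ℝ × ℝ → ℝ) : Prop where
  finsler : IsDirectedFinsler (fun _ => N)
  fills : FillsWithoutShortcuts (fun _ => N)
  plus : pathLength (fun _ => N) circlePlus = ENNReal.ofReal a
  minus : pathLength (fun _ => N) circleMinus = ENNReal.ofReal b

variable {a b : ℝ} {N : ℝ × ℝ → ℝ}

lemma origin_mem : ((0, 0) : ℝ × ℝ) ∈ strip := by simp [strip]

lemma sym (h : IsDirectedFinsler (fun _ => N)) (v : ℝ × ℝ) : N (-v.1, v.2) = N v :=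
  h.invariant (0, 0) origin_mem v

lemma hom (h : IsDirectedFinsler (fun _ => N)) (v : ℝ × ℝ) {c : ℝ} (hc : 0 ≤ c) :
    N (c • v) = c * N v := h.homogeneous (0, 0) origin_mem v c hc

lemma nonneg (h : IsDirectedFinsler (fun _ => N)) (v : ℝ × ℝ) : 0 ≤ N v :=
  h.nonneg (0, 0) origin_mem v

lemma half (h : IsDirectedFinsler (fun _ => N)) (v w : ℝ × ℝ) :
    N ((1 / 2 : ℝ) • v + (1 / 2 : ℝ) • w) ≤ 1 / 2 * N v + 1 / 2 * N w := by
  have hc := (h.convex (0, 0) origin_mem).2 (mem_univ v) (mem_univ w)
    (show (0 : ℝ) ≤ 1 / 2 by norm_num) (show (0 : ℝ) ≤ 1 / 2 by norm_num) (by norm_num)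
  simpa only [smul_eq_mul] using hc

lemma subadd (h : IsDirectedFinsler (fun _ => N)) (v w : ℝ × ℝ) : N (v + w) ≤ N v + N w := by
  have hc := half h v w
  rw [← smul_add, hom h (v + w) (by norm_num)] at hc
  linarith

lemma vert_le (h : IsDirectedFinsler (fun _ => N)) (v : ℝ × ℝ) : N (0, v.2) ≤ N v := by
  have hc := half h v (-v.1, v.2)
  rw [sym h v] at hc
  have : (1 / 2 : ℝ) • v + (1 / 2 : ℝ) • ((-v.1, v.2) : ℝ × ℝ) = (0, v.2) := by
    ext
    · simp
    · simp; ring
  rw [this] at hc
  linarith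

lemma pathLength_seg (x v : ℝ × ℝ) :
    pathLength (fun _ w => N w) (fun t => x + t • v) = ENNReal.ofReal (N v) := by
  have h : ∀ t : ℝ, deriv (fun t : ℝ => x + t • v) t = v := fun t => by
    rw [deriv_const_add]
    have := ((hasDerivAt_id t).smul_const v).deriv
    simpa using this
  simp only [pathLength, h, setLIntegral_const, Real.volume_Icc]
  simp

lemma up_eq (h : IsFlatFilling a b N) (ha : 0 < a) : N (0, 1) = a / 2 := by
  have hplus : circlePlus = fun t : ℝ => ((1 : ℝ), (0 : ℝ)) + t • ((0 : ℝ), (2 : ℝ)) := by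
    ext t
    · simp [circlePlus]
    · simp [circlePlus]
      ring
  have h1 := h.plus
  rw [hplus] at h1
  have h2 : ENNReal.ofReal (N (0, 2)) = ENNReal.ofReal a := by
    rw [← h1]; exact (pathLength_seg _ _).symm
  have h3 : N (0, 2) = a :=
    (ENNReal.ofReal_eq_ofReal_iff (nonneg h.finsler _) ha.le).1 h2
  have h4 := hom h.finsler (0, 2) (show (0 : ℝ) ≤ 1 / 2 by norm_num)
  have h5 : ((1 / 2 : ℝ) • ((0, 2) : ℝ × ℝ)) = (0, 1) := by ext <;> simp
  rw [h5, h3] at h4
  rw [h4]; ring

lemma down_eq (h : IsFlatFilling a b N) (hb : 0 < b) : N (0, -1) = b / 2 := by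
  have hminus : circleMinus = fun t : ℝ => ((1 : ℝ), (0 : ℝ)) + t • ((0 : ℝ), (-2 : ℝ)) := by
    ext t
    · simp [circleMinus]
    · simp [circleMinus]
      ring
  have h1 := h.minus
  rw [hminus] at h1
  have h2 : ENNReal.ofReal (N (0, -2)) = ENNReal.ofReal b := by
    rw [← h1]; exact (pathLength_seg _ _).symm
  have h3 : N (0, -2) = b :=
    (ENNReal.ofReal_eq_ofReal_iff (nonneg h.finsler _) hb.le).1 h2
  have h4 := hom h.finsler (0, -2) (show (0 : ℝ) ≤ 1 / 2 by norm_num)
  have h5 : ((1 / 2 : ℝ) • ((0, -2) : ℝ × ℝ)) = (0, -1) := by ext <;> simp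
  rw [h5, h3] at h4
  rw [h4]; ring

lemma up_le (h : IsFlatFilling a b N) (ha : 0 < a) (v : ℝ × ℝ) : a / 2 * v.2 ≤ N v := by
  rcases le_total 0 v.2 with h0 | h0
  · have h1 := hom h.finsler (0, 1) h0
    have h2 : (v.2 • ((0, 1) : ℝ × ℝ)) = (0, v.2) := by ext <;> simp
    rw [h2, up_eq h ha] at h1
    have := vert_le h.finsler v
    linarith
  · have := nonneg h.finsler v
    nlinarith

lemma down_le (h : IsFlatFilling a b N) (hb : 0 < b) (v : ℝ × ℝ) : -(b / 2) * v.2 ≤ N v := by
  rcases le_total 0 v.2 with h0 | h0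
  · have := nonneg h.finsler v
    nlinarith
  · have h1 := hom h.finsler (0, -1) (neg_nonneg.2 h0)
    have h2 : (-v.2 • ((0, -1) : ℝ × ℝ)) = (0, v.2) := by ext <;> simp
    rw [h2, down_eq h hb] at h1
    have := vert_le h.finsler v
    linarith

lemma edge_lower (h : IsFlatFilling a b N) (ha : 0 < a) (hb : 0 < b) :
    ENNReal.ofReal (a * b / (a + b)) ≤
      dirDist (fun _ => N) edge (1, 0) (-1, (b - a) / (a + b)) := by
  have hab : 0 < a + b := by linarith
  unfold dirDist
  refine le_iInf fun γ => le_iInf fun hγ => le_iInf fun hx => le_iInf fun hy => ?_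
  rw [samePoint_iff] at hx hy
  obtain ⟨k, hk⟩ := hx
  obtain ⟨l, hl⟩ := hy
  have hcont : ContinuousOn (fun t => (γ t).1) (uIcc (0 : ℝ) 1) := by
    rw [uIcc_of_le zero_le_one]
    exact continuous_fst.comp_continuousOn hγ.continuousOn
  have hne : ∀ t ∈ Icc (0 : ℝ) 1, (γ t).1 ≠ 0 := by
    intro t ht h0
    have h1 : |(γ t).1| = 1 := hγ.mem t ht
    rw [h0] at h1
    simp at h1
  have hconst : ¬ (γ 1).1 = -(γ 0).1 := by
    intro hcon
    have h0 : (0 : ℝ) ∈ uIcc ((γ 0).1) ((γ 1).1) := by
      rw [hcon, mem_uIcc]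
      rcases le_total 0 (γ 0).1 with h1 | h1
      · right; constructor <;> linarith
      · left; constructor <;> linarith
    obtain ⟨t, ht, ht0⟩ := intermediate_value_uIcc hcont h0
    rw [uIcc_of_le zero_le_one] at ht
    exact hne t ht ht0
  have hlk : l ≠ k := by
    rintro rfl
    apply hconst
    rw [hk, hl]
    simp
  have hΔ : (γ 1 - γ 0).2 = (b - a) / (a + b) + (l - k) := by
    rw [hk, hl]
    simp
    ring
  have e1 : (b - a) / (a + b) + 1 = 2 * b / (a + b) := by field_simp; ring
  have e2 : (b - a) / (a + b) - 1 = -(2 * a / (a + b)) := by field_simp; ring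
  rcases lt_or_gt_of_ne hlk with hlt | hlt
  · -- `l < k`
    have h1 : (l : ℝ) - k ≤ -1 := by
      have : l + 1 ≤ k := hlt
      have : (l : ℝ) + 1 ≤ k := by exact_mod_cast this
      linarith
    have h2 := length_ge_linear (F := fun _ v => N v) hγ (p := 0) (q := -(b / 2))
      (fun _ v => by rw [zero_mul, zero_add]; exact down_le h hb v)
    refine le_trans (ENNReal.ofReal_le_ofReal ?_) h2
    rw [hΔ, zero_mul, zero_add]
    have h3 : (b - a) / (a + b) + ((l : ℝ) - k) ≤ -(2 * a / (a + b)) := by linarith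
    have h4 := mul_le_mul_of_nonneg_left h3 (show 0 ≤ b / 2 by linarith)
    have h5 : b / 2 * -(2 * a / (a + b)) = -(a * b / (a + b)) := by field_simp
    linarith
  · have h1 : 1 ≤ (l : ℝ) - k := by
      have : k + 1 ≤ l := hlt
      have : (k : ℝ) + 1 ≤ l := by exact_mod_cast this
      linarith
    have h2 := length_ge_linear (F := fun _ v => N v) hγ (p := 0) (q := a / 2)
      (fun _ v => by rw [zero_mul, zero_add]; exact up_le h ha v)
    refine le_trans (ENNReal.ofReal_le_ofReal ?_) h2
    rw [hΔ, zero_mul, zero_add]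
    have h3 : 2 * b / (a + b) ≤ (b - a) / (a + b) + ((l : ℝ) - k) := by linarith
    have h4 := mul_le_mul_of_nonneg_left h3 (show 0 ≤ a / 2 by linarith)
    have h5 : a / 2 * (2 * b / (a + b)) = a * b / (a + b) := by field_simp
    linarith

lemma cross_lower (h : IsFlatFilling a b N) (ha : 0 < a) (hb : 0 < b) :
    a * b / (a + b) ≤ N (2, (b - a) / (a + b)) := by
  have h1 := edge_lower h ha hb
  have h2 := h.fills (1, 0) (by simp [edge]) (-1, (b - a) / (a + b)) (by simp [edge])
  have hp : IsPath strip (fun t : ℝ => ((1 : ℝ), (0 : ℝ)) + t • ((-2 : ℝ), (b - a) / (a + b))) :=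
    isPath_segment fun t ht => by
      simp only [strip, mem_ofPred_eq, Prod.fst_add, Prod.smul_fst, smul_eq_mul]
      rw [abs_le]
      constructor <;> linarith [ht.1, ht.2]
  have h3 : dirDist (fun _ => N) strip (1, 0) (-1, (b - a) / (a + b)) ≤
      ENNReal.ofReal (N (-2, (b - a) / (a + b))) := by
    unfold dirDist
    refine (iInf_le _ _).trans ((iInf_le _ hp).trans ((iInf_le _ ?_).trans ((iInf_le _ ?_).trans ?_)))
    · simpa using samePoint_refl _
    · have : ((1 : ℝ), (0 : ℝ)) + (1 : ℝ) • ((-2 : ℝ), (b - a) / (a + b)) =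
          (-1, (b - a) / (a + b)) := by
        ext
        · simp; norm_num
        · simp
      rw [this]
      exact samePoint_refl _
    · exact (pathLength_seg _ _).le
  have h4 := h1.trans (h2.trans h3)
  rw [ENNReal.ofReal_le_ofReal_iff (nonneg h.finsler _)] at h4
  have h5 := sym h.finsler (-2, (b - a) / (a + b))
  simp only [neg_neg] at h5
  rw [h5]
  exact h4

/-- a supporting functional -/
lemma support (h : IsDirectedFinsler (fun _ => N)) (w : ℝ × ℝ) (hw : w ≠ 0) :
    ∃ p q : ℝ, p * w.1 + q * w.2 = N w ∧ ∀ v : ℝ × ℝ, p * v.1 + q * v.2 ≤ N v := by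
  obtain ⟨g, hg1, hg2⟩ := exists_extension_of_le_sublinear
    (LinearPMap.mkSpanSingleton (K := ℝ) w (N w) hw) N
    (fun c hc x => hom h x hc.le) (fun x y => subadd h x y) (by
      rintro ⟨x, hx⟩
      obtain ⟨c, rfl⟩ := Submodule.mem_span_singleton.1 hx
      have e : LinearPMap.mkSpanSingleton (K := ℝ) w (N w) hw ⟨c • w, hx⟩ = c • N w :=
        LinearPMap.mkSpanSingleton'_apply _ _ _ _ _
      rw [e]
      simp only [smul_eq_mul]
      rcases le_total 0 c with hc | hc
      · rw [hom h w hc]
      · have h1 := nonneg h (c • w)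
        have h2 := nonneg h w
        nlinarith)
  have hlin : ∀ v : ℝ × ℝ, g v = g (1, 0) * v.1 + g (0, 1) * v.2 := by
    intro v
    have : v = v.1 • ((1, 0) : ℝ × ℝ) + v.2 • ((0, 1) : ℝ × ℝ) := by ext <;> simp
    conv_lhs => rw [this]
    rw [map_add, map_smul, map_smul, smul_eq_mul, smul_eq_mul]
    ring
  refine ⟨g (1, 0), g (0, 1), ?_, fun v => ?_⟩
  · rw [← hlin]
    have h1 := hg1 ⟨w, Submodule.mem_span_singleton_self w⟩
    exact h1.trans (LinearPMap.mkSpanSingleton_apply ℝ ℝ hw (N w))
  · rw [← hlin]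
    exact hg2 v

/-- the functional with first coordinate `a / 4` -/
lemma wide (h : IsFlatFilling a b N) (ha : 0 < a) (hab : a ≤ b) :
    ∃ q : ℝ, ∀ v : ℝ × ℝ, a / 4 * |v.1| + q * v.2 ≤ N v := by
  have hb : 0 < b := by linarith
  have hs : 0 < a + b := by linarith
  obtain ⟨p, q, h1, h2⟩ := support h.finsler (2, (b - a) / (a + b)) (by
    intro hcon
    have := congrArg Prod.fst hcon
    simp at this)
  have h3 := cross_lower h ha hb
  rw [← h1] at h3
  have h4 := h2 (0, 1)
  rw [up_eq h ha] at h4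
  have h5 : q ≤ a / 2 := by linarith
  have h6 : (0 : ℝ) ≤ (b - a) / (a + b) := div_nonneg (by linarith) hs.le
  have h7 := mul_le_mul_of_nonneg_right h5 h6
  have h8 : a * b / (a + b) - a / 2 * ((b - a) / (a + b)) = a / 2 := by field_simp; ring
  have h9 : a / 4 ≤ p := by
    simp only at h3
    linarith
  refine ⟨q, fun v => ?_⟩
  have h10 : N (|v.1|, v.2) = N v := by
    rcases abs_choice v.1 with hc | hc
    · rw [hc]
    · rw [hc]; exact sym h.finsler v
  have h11 := h2 (|v.1|, v.2)
  rw [h10] at h11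
  have h12 := mul_le_mul_of_nonneg_right h9 (abs_nonneg v.1)
  simp only at h11
  linarith

lemma integral_tent {w c : ℝ} (hw : 0 < w) :
    ∫ r in (-w)..w, (1 - |r| / w) * c = c * w := by
  have hcont : Continuous fun r : ℝ => (1 - |r| / w) * c := by fun_prop
  rw [← intervalIntegral.integral_add_adjacent_intervals (b := 0)
    (hcont.intervalIntegrable _ _) (hcont.intervalIntegrable _ _)]
  have e1 : ∫ r in (-w)..0, (1 - |r| / w) * c = ∫ r in (-w)..0, (c + (c / w) * r) := by
    apply intervalIntegral.integral_congr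
    intro r hr
    rw [uIcc_of_le (by linarith)] at hr
    simp only
    rw [abs_of_nonpos hr.2]
    field_simp
    ring
  have e2 : ∫ r in (0 : ℝ)..w, (1 - |r| / w) * c = ∫ r in (0 : ℝ)..w, (c - (c / w) * r) := by
    apply intervalIntegral.integral_congr
    intro r hr
    rw [uIcc_of_le hw.le] at hr
    simp only
    rw [abs_of_nonneg hr.1]
    field_simp
  rw [e1, e2, intervalIntegral.integral_add (Continuous.intervalIntegrable (by fun_prop) _ _)
      (Continuous.intervalIntegrable (by fun_prop) _ _),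
    intervalIntegral.integral_sub (Continuous.intervalIntegrable (by fun_prop) _ _)
      (Continuous.intervalIntegrable (by fun_prop) _ _), intervalIntegral.integral_const_mul,
    intervalIntegral.integral_const_mul, intervalIntegral.integral_const,
    intervalIntegral.integral_const, integral_id, integral_id]
  simp only [smul_eq_mul]
  field_simp
  ring

lemma volume_codisk_ge (h : IsFlatFilling a b N) (ha : 0 < a) (hab : a ≤ b) (p : ℝ × ℝ) :
    ENNReal.ofReal (a * (a + b) / 8) ≤ volume (codisk (fun _ => N) p) := by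
  have hb : 0 < b := by linarith
  obtain ⟨q, hq⟩ := wide h ha hab
  set w : ℝ := a / 4 with hw
  have hw0 : 0 < w := by rw [hw]; linarith
  set K : Set (ℝ × ℝ) := {φ | |φ.1| ≤ w ∧
    |φ.1| / w * q - (1 - |φ.1| / w) * (b / 2) ≤ φ.2 ∧
    φ.2 ≤ |φ.1| / w * q + (1 - |φ.1| / w) * (a / 2)} with hK
  have hsub : K ⊆ codisk (fun _ => N) p := by
    rintro ⟨r, s⟩ ⟨h1, h2, h3⟩ v
    simp only at h1 h2 h3 ⊢
    set L : ℝ := |r| / w with hL
    have hL0 : 0 ≤ L := div_nonneg (abs_nonneg _) hw0.le
    have hL1 : L ≤ 1 := by rw [hL, div_le_one hw0]; exact h1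
    have hr : |r| = L * w := by rw [hL]; field_simp
    have hrv : r * v.1 ≤ L * (w * |v.1|) := by
      calc r * v.1 ≤ |r * v.1| := le_abs_self _
        _ = |r| * |v.1| := abs_mul _ _
        _ = L * (w * |v.1|) := by rw [hr]; ring
    have hA := mul_le_mul_of_nonneg_left (hq v) hL0
    have hL1' : 0 ≤ 1 - L := by linarith
    rcases le_total 0 v.2 with h0 | h0
    · have hB := mul_le_mul_of_nonneg_left (up_le h ha v) hL1'
      have hC := mul_le_mul_of_nonneg_right h3 h0
      nlinarith
    · have hB := mul_le_mul_of_nonneg_left (down_le h hb v) hL1'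
      have hC := mul_le_mul_of_nonpos_right h2 h0
      nlinarith
  have hmeas : MeasurableSet K := by
    have m1 : MeasurableSet {φ : ℝ × ℝ | |φ.1| ≤ w} :=
      measurableSet_le (by fun_prop) (by fun_prop)
    have m2 : MeasurableSet {φ : ℝ × ℝ |
        |φ.1| / w * q - (1 - |φ.1| / w) * (b / 2) ≤ φ.2} :=
      measurableSet_le (by fun_prop) (by fun_prop)
    have m3 : MeasurableSet {φ : ℝ × ℝ |
        φ.2 ≤ |φ.1| / w * q + (1 - |φ.1| / w) * (a / 2)} :=
      measurableSet_le (by fun_prop) (by fun_prop)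
    exact m1.inter (m2.inter m3)
  refine le_trans (le_of_eq ?_) (measure_mono hsub)
  rw [Measure.volume_eq_prod, Measure.prod_apply hmeas]
  have hslice : ∀ r : ℝ, volume (Prod.mk r ⁻¹' K) =
      (Icc (-w) w).indicator
        (fun r => ENNReal.ofReal ((1 - |r| / w) * ((a + b) / 2))) r := by
    intro r
    by_cases hr : r ∈ Icc (-w) w
    · rw [indicator_of_mem hr]
      have : Prod.mk r ⁻¹' K = Icc (|r| / w * q - (1 - |r| / w) * (b / 2))
          (|r| / w * q + (1 - |r| / w) * (a / 2)) := by
        ext s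
        have hr' : |r| ≤ w := abs_le.2 hr
        simp only [hK, mem_preimage, mem_ofPred_eq, mem_Icc]
        exact ⟨fun h => h.2, fun h => ⟨hr', h⟩⟩
      rw [this, Real.volume_Icc]
      congr 1
      ring
    · rw [indicator_of_notMem hr]
      have : Prod.mk r ⁻¹' K = ∅ := by
        ext s
        simp only [hK, mem_preimage, mem_ofPred_eq, mem_empty_iff_false, iff_false]
        rintro ⟨h1, -⟩
        exact hr (abs_le.1 h1)
      rw [this, measure_empty]
  simp only [hslice]
  rw [lintegral_indicator measurableSet_Icc, ← ofReal_integral_eq_lintegral_ofReal]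
  · rw [integral_Icc_eq_integral_Ioc, ← intervalIntegral.integral_of_le (by linarith),
      integral_tent hw0]
    congr 1
    rw [hw]; ring
  · apply ContinuousOn.integrableOn_Icc
    fun_prop
  · filter_upwards [ae_restrict_mem measurableSet_Icc] with r hr
    have h1 : |r| ≤ w := abs_le.2 hr
    have h2 : |r| / w ≤ 1 := (div_le_one hw0).2 h1
    have h3 : 0 ≤ 1 - |r| / w := by linarith
    have : 0 ≤ (a + b) / 2 := by linarith
    positivity

theorem htArea_ge (h : IsFlatFilling a b N) (ha : 0 < a) (hab : a ≤ b) :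
    ENNReal.ofReal (a * (a + b) / 4) ≤ htArea (fun _ => N) := by
  have hb : 0 < b := by linarith
  unfold htArea
  calc ENNReal.ofReal (a * (a + b) / 4)
      = ∫⁻ _ in Icc (-1 : ℝ) 1 ×ˢ Icc (0 : ℝ) 1, ENNReal.ofReal (a * (a + b) / 8) := by
        rw [setLIntegral_const, Measure.volume_eq_prod, Measure.prod_prod, Real.volume_Icc,
          Real.volume_Icc, ← ENNReal.ofReal_mul (by norm_num), ← ENNReal.ofReal_mul (by positivity)]
        congr 1
        ring
    _ ≤ _ := lintegral_mono fun p => volume_codisk_ge h ha hab p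

lemma isFlatFilling_nrm (ha : 0 < a) (hb : 0 < b) : IsFlatFilling a b (nrm a b) where
  finsler :=
    { continuousOn := ((nrm_continuous a b).comp continuous_snd).continuousOn
      nonneg := fun _ _ v => nrm_nonneg ha.le hb.le v
      homogeneous := fun _ _ v c hc => nrm_smul v hc
      convex := fun _ _ => nrm_convex ha.le
      invariant := fun _ _ v => by simp [nrm] }
  fills := fillsWithoutShortcuts ha hb
  plus := by
    have hplus : circlePlus = fun t : ℝ => ((1 : ℝ), (0 : ℝ)) + t • ((0 : ℝ), (2 : ℝ)) := by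
      ext t
      · simp [circlePlus]
      · simp [circlePlus]
        ring
    rw [hplus]
    refine (pathLength_seg (N := nrm a b) _ _).trans ?_
    congr 1
    simp only [nrm, abs_zero, mul_zero, zero_add]
    rw [max_eq_left (by nlinarith)]
    ring
  minus := by
    have hminus : circleMinus = fun t : ℝ => ((1 : ℝ), (0 : ℝ)) + t • ((0 : ℝ), (-2 : ℝ)) := by
      ext t
      · simp [circleMinus]
      · simp [circleMinus]
        ring
    rw [hminus]
    refine (pathLength_seg (N := nrm a b) _ _).trans ?_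
    congr 1
    simp only [nrm, abs_zero, mul_zero, zero_add]
    rw [max_eq_right (by nlinarith)]
    ring

end

end Pool.Agent.Y685.Mob
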